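import Pool.Agent.H47.PL.Targets

/-!
Planted random k-CNFs (MP_c62aed_lc), row EXC: all solutions of a formula have the same weight.
-/

set_option autoImplicit false

namespace Pool.Agent.H5.PL

open Finset Pool.Agent.H97.RK Pool.Agent.H47.PL

private theorem cardP {α β : Type} [Fintype α] [Fintype β] (P : α × β → Prop)
    [DecidablePred P] : ((univ.filter P).card : ℝ) = ∑ a, ((univ.filter fun b => P (a, b)).card : ℝ) := by
  rw [← Nat.cast_sum]
  congr 1
  rw [Finset.card_filter, Fintype.sum_prod_type]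
  exact Finset.sum_congr rfl fun a _ => (Finset.card_filter _ _).symm

theorem pf_EXC : T_EXC := by
  classical
  intro n k m N B w hN
  rw [cardP]
  have h1 : N * ∑ β ∈ B, ((univ.filter fun p : Fml n k m × (Fin n → Bool) => Dist p.1 ∧
      Sat p.1 p.2 ∧ (w p.1 β).card = β.length ∧ Agr p.2 (w p.1 β)).card : ℝ) =
      ∑ F : Fml n k m, N * ∑ β ∈ B, ((univ.filter fun σ : Fin n → Bool => Dist F ∧
      Sat F σ ∧ (w F β).card = β.length ∧ Agr σ (w F β)).card : ℝ) := by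
    rw [← Finset.mul_sum, Finset.sum_comm]
    congr 1
    exact Finset.sum_congr rfl fun β _ => cardP _
  rw [h1]
  refine Finset.sum_le_sum fun F _ => ?_
  have hnn : ∀ β ∈ B, (0 : ℝ) ≤ ((univ.filter fun σ : Fin n → Bool => Dist F ∧
      Sat F σ ∧ (w F β).card = β.length ∧ Agr σ (w F β)).card : ℝ) := fun β _ => Nat.cast_nonneg _
  by_cases hF : Dist F ∧ (nsol F : ℝ) ≤ N ∧ ∃ β ∈ B, (w F β).card = β.length ∧
      ∃ τ, Sat F τ ∧ Agr τ (w F β)
  · obtain ⟨hD, hle, β, hβ, hc, τ, hτ, hA⟩ := hF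
    have h2 : ((univ.filter fun σ : Fin n → Bool => Dist F ∧ Sat F σ ∧ (nsol F : ℝ) ≤ N ∧
        ∃ β ∈ B, (w F β).card = β.length ∧ ∃ τ, Sat F τ ∧ Agr τ (w F β)).card : ℝ) ≤ N := by
      refine le_trans ?_ hle
      have : (univ.filter fun σ : Fin n → Bool => Dist F ∧ Sat F σ ∧ (nsol F : ℝ) ≤ N ∧
          ∃ β ∈ B, (w F β).card = β.length ∧ ∃ τ, Sat F τ ∧ Agr τ (w F β)).card ≤ nsol F := by
        unfold nsol
        apply Finset.card_le_card
        intro σ hσ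
        rw [Finset.mem_filter] at hσ ⊢
        exact ⟨hσ.1, hσ.2.2.1⟩
      exact_mod_cast this
    have h3 : (1 : ℝ) ≤ ∑ β ∈ B, ((univ.filter fun σ : Fin n → Bool => Dist F ∧
        Sat F σ ∧ (w F β).card = β.length ∧ Agr σ (w F β)).card : ℝ) := by
      refine le_trans ?_ (Finset.single_le_sum hnn hβ)
      have h4 : 0 < (univ.filter fun σ : Fin n → Bool => Dist F ∧
          Sat F σ ∧ (w F β).card = β.length ∧ Agr σ (w F β)).card :=
        Finset.card_pos.2 ⟨τ, Finset.mem_filter.2 ⟨Finset.mem_univ _, hD, hτ, hc, hA⟩⟩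
      exact_mod_cast h4
    calc _ ≤ N := h2
      _ = N * 1 := (mul_one N).symm
      _ ≤ _ := mul_le_mul_of_nonneg_left h3 hN
  · have h2 : (univ.filter fun σ : Fin n → Bool => Dist F ∧ Sat F σ ∧ (nsol F : ℝ) ≤ N ∧
        ∃ β ∈ B, (w F β).card = β.length ∧ ∃ τ, Sat F τ ∧ Agr τ (w F β)) = ∅ := by
      apply Finset.filter_eq_empty_iff.2
      rintro σ _ ⟨h3, -, h4, h5⟩
      exact hF ⟨h3, h4, h5⟩
    change ((univ.filter fun σ : Fin n → Bool => Dist F ∧ Sat F σ ∧ (nsol F : ℝ) ≤ N ∧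
        ∃ β ∈ B, (w F β).card = β.length ∧ ∃ τ, Sat F τ ∧ Agr τ (w F β)).card : ℝ) ≤ _
    rw [h2, Finset.card_empty, Nat.cast_zero]
    exact mul_nonneg hN (Finset.sum_nonneg hnn)

end Pool.Agent.H5.PL
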